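import Pool.Agent.PN86.Main

/-! Q1 in the Cramér-Granville random model of the primes, with sieving level `z m ≤ (1/2) log log m`: almost surely
for all large `n` one of the numbers `k p(n) (p(n) - 1) + 1`, `1 ≤ k < n`, is in the random set (`p(n)` = number of
partitions). -/

set_option autoImplicit false

namespace Pool.Agent.Results.MP_caf74c_nt.GranvilleModel

open MeasureTheory Filter Pool.Agent.GM53 Pool.Agent.PN86

theorem result (z : ℕ → ℕ) (hz : ∀ᶠ m : ℕ in atTop, (z m : ℝ) ≤ Real.log (Real.log m) / 2) :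
    ∀ᵐ ω ∂(Measure.infinitePi (coin z)), ∀ᶠ n : ℕ in atTop,
      ∃ k, 1 ≤ k ∧ k < n ∧ ω (k * (pp n * (pp n - 1)) + 1) = true :=
  q1 z hz

end Pool.Agent.Results.MP_caf74c_nt.GranvilleModel
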