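import Pool.Agent.PN86.Main

/-! Q2 in Cramér's random model of the primes (with or without the even numbers): almost surely for all large `n`
one of the numbers `p(k) p(n) (p(n) - 1) + 1`, `1 ≤ k < n`, and one of the numbers `p(k) p(n) (p(n) + 1) - 1`,
`1 ≤ k < n`, is in the random set (`p(n)` = number of partitions). -/

set_option autoImplicit false

namespace Pool.Agent.Results.MP_caf74c_nt.PartitionModel

open MeasureTheory Filter Pool.Agent.GM53 Pool.Agent.PN86

theorem result (z : ℕ → ℕ) (hz : ∀ᶠ m : ℕ in atTop, z m ≤ 2) :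
    ∀ᵐ ω ∂(Measure.infinitePi (coin z)), ∀ᶠ n : ℕ in atTop,
      (∃ k, 1 ≤ k ∧ k < n ∧ ω (pp k * (pp n * (pp n - 1)) + 1) = true) ∧
      (∃ k, 1 ≤ k ∧ k < n ∧ ω (pp k * (pp n * (pp n + 1)) - 1) = true) := by
  filter_upwards [q2a z hz, q2b z hz] with ω ha hb
  filter_upwards [ha, hb] with n h1 h2
  exact ⟨h1, h2⟩

end Pool.Agent.Results.MP_caf74c_nt.PartitionModel
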